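import Mathlib
import Pool.Agent.H567.Main

set_option autoImplicit false

namespace Pool.Agent.Results.MP_35c45d_lc.DcPermLower

open Pool.Agent.H567 MvPolynomial

universe u

/-- An affine-linear polynomial is its constant term plus a linear form, on all points. -/
theorem eval_of_totalDegree_le_one {K : Type u} [Field K] {τ : Type} [Fintype τ] [DecidableEq τ]
    (p : MvPolynomial τ K) (hp : p.totalDegree ≤ 1) (x : τ → K) :
    eval x p = coeff 0 p + ∑ i, coeff (Finsupp.single i 1) p * x i := by
  rw [eval_eq']
  have hsub : p.support ⊆ insert 0 (Finset.univ.image (fun i : τ => Finsupp.single i 1)) := by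
    intro d hd
    rw [Finset.mem_insert, Finset.mem_image]
    have h1 : (d.sum fun _ e => e) ≤ 1 := le_trans (le_totalDegree hd) hp
    have hsum : (d.sum fun _ e => e) = ∑ i, d i := by
      rw [Finsupp.sum_fintype]
      intro i; rfl
    rw [hsum] at h1
    by_cases h0 : d = 0
    · exact Or.inl h0
    · right
      obtain ⟨i, hi⟩ : ∃ i, d i ≠ 0 := by
        by_contra hcon
        push Not at hcon
        exact h0 (Finsupp.ext hcon)
      refine ⟨i, Finset.mem_univ _, ?_⟩
      have h2 : d i ≤ ∑ j, d j := Finset.single_le_sum (fun j _ => Nat.zero_le _) (Finset.mem_univ i)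
      have h3 : d i = 1 := by omega
      ext j
      by_cases hij : i = j
      · subst hij; simp [h3]
      · rw [Finsupp.single_eq_of_ne (Ne.symm hij)]
        have h4 : d i + d j ≤ ∑ l, d l := by
          rw [← Finset.sum_pair hij]
          exact Finset.sum_le_sum_of_subset (Finset.subset_univ _)
        omega
  rw [Finset.sum_subset hsub]
  · rw [Finset.sum_insert, Finset.sum_image]
    · congr 1
      · simp
      · apply Finset.sum_congr rfl
        intro i _
        congr 1
        rw [Finset.prod_eq_single i]
        · simp
        · intro j _ hj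
          rw [Finsupp.single_eq_of_ne hj, pow_zero]
        · simp
    · intro i _ j _ hij
      exact Finsupp.single_left_injective one_ne_zero hij
    · rw [Finset.mem_image]
      rintro ⟨i, _, hi⟩
      have := DFunLike.congr_fun hi i
      simp at this
  · intro d _ hd
    rw [notMem_support_iff.mp hd, zero_mul]

/-- **Determinantal complexity of the permanent.** Over any field of characteristic zero, if the
`m × m` permanent is the determinant of an `n × n` matrix of affine-linear forms, then
`m² ≤ n + 4 m`, i.e. `n ≥ m² - 4 m`. -/
theorem result {K : Type u} [Field K] [CharZero K] (m n : ℕ)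
    (A : Matrix (Fin n) (Fin n) (MvPolynomial (Fin m × Fin m) K))
    (hA : ∀ i j, (A i j).totalDegree ≤ 1)
    (hdet : A.det = (Matrix.of (fun i j : Fin m =>
      (MvPolynomial.X (i, j) : MvPolynomial (Fin m × Fin m) K))).permanent) :
    m ^ 2 ≤ n + 4 * m := by
  classical
  by_cases hm : m < 5
  · nlinarith
  obtain ⟨k, rfl⟩ : ∃ k, m = k + 2 := ⟨m - 2, by omega⟩
  have hk : 3 ≤ k := by omega
  have hcard : Fintype.card (Option (Option (Fin k))) = Fintype.card (Fin (k + 2)) := by
    simp
  let e : Option (Option (Fin k)) ≃ Fin (k + 2) := Fintype.equivOfCardEq hcard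
  -- the affine map
  let B : Matrix (Fin n) (Fin n) K := Matrix.of fun a b => coeff 0 (A a b)
  let L : Matrix (Option (Option (Fin k))) (Option (Option (Fin k))) K →ₗ[K]
      Matrix (Fin n) (Fin n) K :=
    { toFun := fun x => Matrix.of fun a b =>
        ∑ i : Fin (k + 2) × Fin (k + 2), coeff (Finsupp.single i 1) (A a b) *
          x (e.symm i.1) (e.symm i.2)
      map_add' := fun x y => by
        ext a b
        simp [mul_add, Finset.sum_add_distrib]
      map_smul' := fun c x => by
        ext a b
        simp only [Matrix.of_apply, Matrix.smul_apply, smul_eq_mul, RingHom.id_apply,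
          Finset.mul_sum]
        apply Finset.sum_congr rfl
        intro i _
        ring }
  have hmain : ∀ x, (B + L x).det = x.permanent := by
    intro x
    let pt : Fin (k + 2) × Fin (k + 2) → K := fun i => x (e.symm i.1) (e.symm i.2)
    have h1 : B + L x = (eval pt).mapMatrix A := by
      ext a b
      rw [RingHom.mapMatrix_apply, Matrix.map_apply, eval_of_totalDegree_le_one _ (hA a b)]
      rfl
    rw [h1, ← RingHom.map_det, hdet, permanent_eq, permanent_eq, map_sum]
    rw [← Equiv.sum_comp (Equiv.permCongr e)]
    apply Finset.sum_congr rfl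
    intro σ _
    rw [map_prod, ← Equiv.prod_comp e]
    apply Finset.prod_congr rfl
    intro i _
    rw [Matrix.of_apply, eval_X]
    simp [pt, Equiv.permCongr_apply]
  have h := abstract_main (K := K) (κ := Fin k) (by simpa using hk) B L hmain
  rw [Fintype.card_fin] at h
  nlinarith

end Pool.Agent.Results.MP_35c45d_lc.DcPermLower
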