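import Pool.Agent.H546R2.AB.T4

set_option autoImplicit false

open MvPolynomial Finset

namespace Pool.Agent.Results.MP_35c45d_lc.LayeredPrograms

/-- A layered algebraic branching program over `K` in the variables `σ`.  Layer `i` has the
vertices `Fin (width i)`; the edge from the vertex `u` of layer `i` to the vertex `v` of layer
`i + 1` carries the polynomial `label i u v` of total degree at most one (an absent edge carries
`0`).  Only the layers `0, …, length` matter.  The usual programs with one source and one sink are
the case `width 0 = width length = 1`. -/
structure Program (K σ : Type*) [CommSemiring K] where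
  /-- number of the last layer -/
  length : ℕ
  /-- number of vertices of a layer -/
  width : ℕ → ℕ
  /-- labels of the edges -/
  label : (i : ℕ) → Fin (width i) → Fin (width (i + 1)) → MvPolynomial σ K
  /-- the labels are affine linear -/
  affine : ∀ (i : ℕ) (u : Fin (width i)) (v : Fin (width (i + 1))),
    (label i u v).totalDegree ≤ 1

/-- The sum, over all paths from layer `0` to the vertex `v` of layer `i`, of the product of the
labels of the edges of the path. -/
noncomputable def Program.value {K σ : Type*} [CommSemiring K] (B : Program K σ) :
    (i : ℕ) → Fin (B.width i) → MvPolynomial σ K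
  | 0, _ => 1
  | i + 1, v => ∑ u : Fin (B.width i), B.value i u * B.label i u v

/-- The polynomial computed by the program: the sum over all paths from layer `0` to the last layer
of the product of the labels. -/
noncomputable def Program.poly {K σ : Type*} [CommSemiring K] (B : Program K σ) :
    MvPolynomial σ K :=
  ∑ v : Fin (B.width B.length), B.value B.length v

/-- The number of vertices strictly between the first and the last layer. -/
def Program.innerSize {K σ : Type*} [CommSemiring K] (B : Program K σ) : ℕ :=
  ∑ i ∈ Finset.Ico 1 B.length, B.width i

lemma value_suf {K σ : Type*} [Field K] (B : Program K σ) : ∀ (n i : ℕ),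
    ∑ v, B.value i v * Pool.Agent.H546R2.AB.suf B.width B.label n i v =
      ∑ v, B.value (i + n) v := by
  intro n
  induction n with
  | zero =>
    intro i
    apply Finset.sum_congr rfl
    intro v _
    unfold Pool.Agent.H546R2.AB.suf
    rw [mul_one]
    rfl
  | succ n ih =>
    intro i
    have h1 : ∑ v, B.value i v * Pool.Agent.H546R2.AB.suf B.width B.label (n + 1) i v =
        ∑ u, B.value (i + 1) u * Pool.Agent.H546R2.AB.suf B.width B.label n (i + 1) u := by
      have h2 : ∀ v, B.value i v * Pool.Agent.H546R2.AB.suf B.width B.label (n + 1) i v =
          ∑ u, B.value i v * B.label i v u *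
            Pool.Agent.H546R2.AB.suf B.width B.label n (i + 1) u := by
        intro v
        conv_lhs => unfold Pool.Agent.H546R2.AB.suf
        rw [Finset.mul_sum]
        apply Finset.sum_congr rfl
        intro u _
        ring
      simp_rw [h2]
      rw [Finset.sum_comm]
      apply Finset.sum_congr rfl
      intro u _
      conv_rhs => unfold Program.value
      rw [Finset.sum_mul]
    rw [h1, ih]
    have h3 : i + 1 + n = i + (n + 1) := by ring
    exact congrArg (fun j => ∑ v, B.value j v) h3

/-- **An `m^(5/2)` lower bound for layered algebraic branching programs for the permanent.**
Over every field of characteristic zero and for every `m`, a layered algebraic branching program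
whose edges carry arbitrary polynomials of degree at most one and which computes the generic
`m × m` permanent has at least `m ^ 2 * (⌊√m⌋ - 14) / 304` inner vertices. -/
theorem result (K : Type*) [Field K] [CharZero K] (m : ℕ) (B : Program K (Fin m × Fin m))
    (hB : B.poly = Matrix.permanent (Matrix.of fun i j : Fin m =>
      (MvPolynomial.X (i, j) : MvPolynomial (Fin m × Fin m) K))) :
    m ^ 2 * (Nat.sqrt m - 14) ≤ 304 * B.innerSize := by
  unfold Program.innerSize
  apply Pool.Agent.H546R2.AB.abp_bound K m B.length B.width B.label B.affine
  have h1 := value_suf B B.length 0
  unfold Pool.Agent.H546R2.SL.perN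
  rw [← hB]
  unfold Program.poly
  have h2 : 0 + B.length = B.length := Nat.zero_add _
  have h3 : ∑ v, B.value (0 + B.length) v = ∑ v, B.value B.length v :=
    congrArg (fun j => ∑ v, B.value j v) h2
  rw [← h3, ← h1]
  apply Finset.sum_congr rfl
  intro v _
  unfold Program.value
  rw [one_mul]

end Pool.Agent.Results.MP_35c45d_lc.LayeredPrograms
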