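import Mathlib
import Pool.Agent.H735R2.OneSym.Classes
import Pool.Agent.H735R2.OneSym.GrenetB

/-!
# Determinantal representations of the permanent with one diagonal symmetry
-/

namespace Pool.Agent.Results.MP_35c45d_lc.OneSymmetry

open MvPolynomial Pool.Agent.H735R2.OneSym

/-- `A` is an affine-linear determinantal representation of the `m × m` permanent. -/
def IsRep {F : Type} [Field F] {m N : ℕ}
    (A : Matrix (Fin N) (Fin N) (MvPolynomial (Fin m × Fin m) F)) : Prop :=
  (∀ a b, (A a b).totalDegree ≤ 1) ∧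
    A.det = (Matrix.of (fun i j : Fin m =>
      (X (i, j) : MvPolynomial (Fin m × Fin m) F))).permanent

/-- `A (s x t) = P A(x) Q` for some invertible constant matrices `P`, `Q`. -/
def HasSym {F : Type} [Field F] {m N : ℕ}
    (A : Matrix (Fin N) (Fin N) (MvPolynomial (Fin m × Fin m) F)) (s t : Fin m → Fˣ) : Prop :=
  ∃ P Q : Matrix (Fin N) (Fin N) F, IsUnit P ∧ IsUnit Q ∧
    A.map (scale s t) = P.map C * A * Q.map C

/-- A determinantal representation of the permanent (over any field of characteristic different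
from two) which has one diagonal symmetry that is generic on `r` rows and columns has size at
least `2 ^ r - 1`; for instance this is so if it has all row scalings and the column scalings
that are constant on `r` classes of columns.  For `r = m` this is sharp: Grenet's representation
of size `2 ^ m - 1` has all diagonal symmetries, and generic ones (preserving the permanent)
exist. -/
theorem result :
    (∀ (F : Type) [Field F], (2 : F) ≠ 0 → ∀ (m r N : ℕ), 3 ≤ r →
      ∀ A : Matrix (Fin N) (Fin N) (MvPolynomial (Fin m × Fin m) F), IsRep A →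
      ∀ s t : Fin m → Fˣ, HasSym A s t →
      ∀ (ρ : Fin r ↪ Fin m) (π : Equiv.Perm (Fin m)),
      (∀ i, i ∉ Set.range ρ → s i * t (π i) = 1) →
      Generic (fun a => s (ρ a)) (fun a => t (π (ρ a))) → 2 ^ r - 1 ≤ N) ∧
    (∀ m r N : ℕ, 3 ≤ r →
      ∀ A : Matrix (Fin N) (Fin N) (MvPolynomial (Fin m × Fin m) ℂ), IsRep A →
      ∀ κ : Fin m → Fin r, Function.Surjective κ →
      (∀ (s : Fin m → ℂˣ) (τ : Fin r → ℂˣ), (∏ i, s i) * ∏ j, τ (κ j) = 1 →
        HasSym A s fun j => τ (κ j)) → 2 ^ r - 1 ≤ N) ∧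
    (∀ (F : Type) [Field F] (m : ℕ), 1 ≤ m →
      ∃ G : Matrix (Fin (2 ^ m - 1)) (Fin (2 ^ m - 1)) (MvPolynomial (Fin m × Fin m) F),
      IsRep G ∧ ∀ s t : Fin m → Fˣ, HasSym G s t) ∧
    (∀ m : ℕ, ∃ s t : Fin m → ℂˣ, Generic s t ∧ (∏ i, s i) * ∏ j, t j = 1) := by
  refine ⟨?_, ?_, ?_, exists_generic⟩
  · rintro F _ h2 m r N hr A ⟨hdeg, hA⟩ s t ⟨P, Q, hP, hQ, h⟩ ρ π hst hg
    have h1 := restr_bound' hr A hdeg (fun _ => 1) (hA.trans permanent_eq')
      (by
        intro a b c d e f
        rw [mul_one, mul_one, one_add_one_eq_two]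
        exact h2) s t ρ π hst hg P Q hP hQ h
    omega
  · rintro m r N hr A ⟨hdeg, hA⟩ κ hκ h
    have h1 := classes_bound hr A hdeg hA κ hκ h
    omega
  · intro F _ m hm
    obtain ⟨G, h1, h2, h3⟩ := grenet (F := F) hm
    exact ⟨G, ⟨h1, h2⟩, h3⟩

end Pool.Agent.Results.MP_35c45d_lc.OneSymmetry
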