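import Mathlib
import Pool.Agent.H567.Nec.Count

set_option autoImplicit false

namespace Pool.Agent.Results.MP_35c45d_lc.WeaklySkewSize

open Pool.Agent.H567.Nec MvPolynomial

universe u

open Classical in
/-- Local form: variables in distinct rows and columns must label many sources. -/
theorem local_bound {K : Type u} [Field K] [CharZero K] (m ℓ n' : ℕ) (hm : 2 * ℓ + n' = m)
    (hn : n' ≤ 2 ^ ℓ) (r c : Fin (2 * ℓ) → Fin m) (hr : Function.Injective r)
    (hc : Function.Injective c) (Φ : Circuit K (Fin m × Fin m)) (hΦ : Φ.WeaklySkew)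
    (o : Fin Φ.N) (ho : Φ.value o = gperm K m) (T : Finset (Fin m × Fin m))
    (hTdef : T = Finset.univ.image (fun s => (r s, c s))) :
    n' ≤ (Finset.univ.filter (fun a => Φ.Sub o a ∧ Circuit.TSrc Φ T a)).card + 1 := by
  obtain ⟨Ξ, P, h1, h2, h3⟩ := exists_jets K m ℓ n' hm hn r c hr hc
  obtain ⟨χ⟩ := hΦ.exists_choice
  have hgood := Circuit.good_sub χ (T := T) (P := P) (by
      intro v hv ξ
      rw [hTdef] at hv
      obtain ⟨s, _, rfl⟩ := Finset.mem_image.mp hv
      exact h1 ξ s) (by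
      intro v hv ξ ξ'
      apply h2
      intro s hs
      apply hv
      rw [hTdef]
      exact (Finset.mem_image.mpr ⟨s, Finset.mem_univ _, hs.symm⟩)) o
  obtain ⟨D, hD, hDmem⟩ := hgood.exists_submodule (f := Circuit.jet P o) ⟨o, Circuit.Reu.self χ o, rfl⟩
  have hT : D = ⊤ := h3 D (by
    intro ξ
    rw [← ho]
    exact hDmem ξ)
  rw [hT, finrank_top] at hD
  simp only [Module.finrank_fintype_fun_eq_card, Fintype.card_prod, Fintype.card_fin] at hD
  by_contra hcon
  push Not at hcon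
  nlinarith

/-- Every weakly skew circuit for the permanent of an `m × m` matrix over a field of characteristic
zero has at least `(1/2 - o(1)) m ^ 3 / log₂ m` gates. -/
theorem result {K : Type u} [Field K] [CharZero K] (m : ℕ) (Φ : Circuit K (Fin m × Fin m))
    (hΦ : Φ.WeaklySkew) (o : Fin Φ.N)
    (ho : Φ.value o = (Matrix.of (fun i j : Fin m =>
      (X (i, j) : MvPolynomial (Fin m × Fin m) K))).permanent) :
    m * (m - 2 * Nat.clog 2 m) * (m - 2 * Nat.clog 2 m - 1)
      ≤ 2 * Nat.clog 2 m * (Φ.size + 1) := by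
  classical
  set ℓ := Nat.clog 2 m with hℓ
  by_cases hm : m ≤ 2 * ℓ
  · rw [Nat.sub_eq_zero_of_le hm]; simp
  push Not at hm
  have hm0 : NeZero m := ⟨by omega⟩
  obtain ⟨n', hn'⟩ : ∃ n', 2 * ℓ + n' = m := ⟨m - 2 * ℓ, by omega⟩
  have hn2 : n' ≤ 2 ^ ℓ := by
    have := Nat.le_pow_clog (b := 2) (by norm_num) m
    rw [← hℓ] at this
    omega
  have hsub : m - 2 * ℓ = n' := by omega
  rw [hsub]
  rcases Nat.eq_zero_or_pos ℓ with h0 | h0
  · have hm1 : m ≤ 1 := by
      by_contra hcon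
      have := Nat.clog_pos (b := 2) (n := m) (by norm_num) (by omega)
      omega
    have hn1 : n' = 1 := by omega
    subst hn1
    simp
  have hloc : ∀ p : Fin m × Fin (m / (2 * ℓ)),
      n' - 1 ≤ (Finset.univ.filter (fun a => Φ.Sub o a ∧
        Circuit.TSrc Φ (blk m (2 * ℓ) p) a)).card := by
    intro p
    have := local_bound m ℓ n' hn' hn2 (rowB m (2 * ℓ) p.2) (colB m (2 * ℓ) p.1 p.2)
      (rowB_injective _ _ _) (colB_injective _ _ _ _) Φ hΦ o ho (blk m (2 * ℓ) p) rfl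
    omega
  have hsum := Circuit.sum_sources_le Φ o Finset.univ (blk m (2 * ℓ)) (blk_disjoint m (2 * ℓ))
  have h4 : (m * (m / (2 * ℓ))) * (n' - 1) ≤ Φ.size + 1 := by
    calc (m * (m / (2 * ℓ))) * (n' - 1)
        = ∑ _p : Fin m × Fin (m / (2 * ℓ)), (n' - 1) := by
          rw [Finset.sum_const, Finset.card_univ, Fintype.card_prod, Fintype.card_fin,
            Fintype.card_fin, smul_eq_mul]
      _ ≤ ∑ p : Fin m × Fin (m / (2 * ℓ)), (Finset.univ.filter (fun a => Φ.Sub o a ∧
          Circuit.TSrc Φ (blk m (2 * ℓ) p) a)).card :=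
          Finset.sum_le_sum (fun p _ => hloc p)
      _ ≤ Φ.size + 1 := hsum
  have h5 : n' ≤ 2 * ℓ * (m / (2 * ℓ)) := by
    have := Nat.div_add_mod m (2 * ℓ)
    have := Nat.mod_lt m (show 0 < 2 * ℓ by omega)
    omega
  calc m * n' * (n' - 1) ≤ m * (2 * ℓ * (m / (2 * ℓ))) * (n' - 1) := by
        gcongr
    _ = 2 * ℓ * ((m * (m / (2 * ℓ))) * (n' - 1)) := by ring
    _ ≤ 2 * ℓ * (Φ.size + 1) := Nat.mul_le_mul_left _ h4

end Pool.Agent.Results.MP_35c45d_lc.WeaklySkewSize
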